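import Pool.Agent.Lib.MP_2d002d_gt.PM.Interfaces

/-! MP_2d002d_gt, project PM, module HEU. -/

set_option autoImplicit false

open MeasureTheory Set Filter Topology
open scoped ENNReal

namespace Pool.Agent.Lib.MP_2d002d_gt.PM.H65

theorem heu : HEU_S := by
  intro n U S α β p
  unfold HE HB
  refine lintegral_congr fun x => ?_
  have h : (∏ i, cw S α β Finset.univ p i (x i)) = if ∀ i, |x i| ≤ p.2 i then (1 : ℝ≥0∞) else 0 := by
    by_cases hx : ∀ i, |x i| ≤ p.2 i
    · rw [if_pos hx]
      refine Finset.prod_eq_one fun i _ => ?_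
      rw [cw, if_pos (Finset.mem_univ i), if_pos (hx i)]
    · rw [if_neg hx]
      push Not at hx
      obtain ⟨i, hi⟩ := hx
      refine Finset.prod_eq_zero (Finset.mem_univ i) ?_
      rw [cw, if_pos (Finset.mem_univ i), if_neg (not_le.mpr hi)]
  rw [h]
  by_cases hx : ∀ i, |x i| ≤ p.2 i
  · rw [if_pos hx, if_pos hx, one_mul]
  · rw [if_neg hx, if_neg hx, zero_mul]

end Pool.Agent.Lib.MP_2d002d_gt.PM.H65
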